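import Pool.Agent.H999R5.Rk.Defs

set_option autoImplicit false

namespace Pool.Agent.H999R5.Rk

open MeasureTheory ProbabilityTheory Finset
open Pool.Agent.H999R5.Inj (form SymT injNorm gm gs S_GAU S_BDD)
open scoped Matrix

instance L1_prob (n : ℕ) : IsProbabilityMeasure (gm n) := by
  unfold gm
  infer_instance

/-- the Euclidean norm is at most the dual norm -/
theorem L1_two (h2 : S_L2) (d : ℕ) (p : ℝ) (hd : 1 ≤ d) (hp : 2 ≤ p) (u : Fin d → ℝ) (N : ℝ)
    (hu : ∀ x ∈ ball d p, |u ⬝ᵥ x| ≤ N) : ∑ k, u k ^ 2 ≤ N ^ 2 := by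
  have hs0 : 0 ≤ ∑ k, u k ^ 2 := Finset.sum_nonneg fun k _ => sq_nonneg _
  rcases hs0.eq_or_lt with h | h
  · rw [← h]; positivity
  · obtain ⟨s, hs⟩ : ∃ s, s = Real.sqrt (∑ k, u k ^ 2) := ⟨_, rfl⟩
    have hspos : 0 < s := by rw [hs]; exact Real.sqrt_pos.2 h
    have hss : s ^ 2 = ∑ k, u k ^ 2 := by rw [hs]; exact Real.sq_sqrt hs0
    have hx : (fun k => u k / s) ∈ ball d p := by
      apply (h2 d p hd hp).2
      simp only [div_pow]
      rw [← Finset.sum_div, ← hss, div_self (by positivity)]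
    have h3 := hu _ hx
    have h4 : u ⬝ᵥ (fun k => u k / s) = s := by
      unfold dotProduct
      have : ∑ i, u i * (u i / s) = (∑ i, u i ^ 2) / s := by
        rw [Finset.sum_div]
        apply Finset.sum_congr rfl
        intro i _
        ring
      rw [this, ← hss]
      field_simp
    rw [h4, abs_of_pos hspos] at h3
    rw [← hss]
    exact pow_le_pow_left₀ hspos.le h3 2

theorem t_L1 (h2 : S_L2) (hV : S_VAR) (hN : S_SN) : S_L1 := by
  intro d n p hd hp u N hN0 hNb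
  have h0 : (0 : Fin d → ℝ) ∈ ball d p := by
    apply (h2 d p hd hp).2
    simp
  have hne : Nonempty ↥(ball d p) := ⟨⟨0, h0⟩⟩
  have hBd : Bd (fun i (x : ↥(ball d p)) => u i ⬝ᵥ x.1) := by
    refine ⟨∑ i, N i, fun i x => (hNb i x.1 x.2).trans ?_⟩
    exact Finset.single_le_sum (fun j _ => hN0 j) (Finset.mem_univ i)
  obtain ⟨-, hle, hnn, -, hint⟩ := hN ↥(ball d p) hne n _ hBd
  obtain ⟨hGi, hGe⟩ := hV n d u
  obtain ⟨S, hS⟩ : ∃ S, S = ∑ i, ∑ k, u i k ^ 2 := ⟨_, rfl⟩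
  obtain ⟨T, hT⟩ : ∃ T, T = ∑ i, N i ^ 2 := ⟨_, rfl⟩
  have hST : S ≤ T := by
    rw [hS, hT]
    exact Finset.sum_le_sum fun i _ => L1_two h2 d p hd hp (u i) (N i) (hNb i)
  have hS0 : 0 ≤ S := by
    rw [hS]
    exact Finset.sum_nonneg fun i _ => Finset.sum_nonneg fun k _ => sq_nonneg _
  obtain ⟨D, hD⟩ : ∃ D, D = (d : ℝ) ^ (1 / 2 - 1 / p) := ⟨_, rfl⟩
  have hd0 : (0 : ℝ) < d := by exact_mod_cast hd
  have hD0 : 0 < D := by rw [hD]; exact Real.rpow_pos_of_pos hd0 _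
  have hDD : (d : ℝ) ^ (1 - 2 / p) = D ^ 2 := by
    rw [hD, ← Real.rpow_natCast, ← Real.rpow_mul hd0.le]
    congr 1
    push_cast
    ring
  obtain ⟨I, hI⟩ : ∃ I, I = ∫ g, sn (fun i (x : ↥(ball d p)) => u i ⬝ᵥ x.1) g ∂(gm n) := ⟨_, rfl⟩
  rw [← hI, ← hD, ← hT]
  -- the pointwise bound
  have hpt : ∀ c : ℝ, 0 < c → ∀ g : Fin n → ℝ, sn (fun i (x : ↥(ball d p)) => u i ⬝ᵥ x.1) g ≤
      D / (2 * c) * (∑ k, (∑ i, g i * u i k) ^ 2) + D * c / 2 := by
    intro c hc g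
    apply hle
    intro x
    obtain ⟨G, hG⟩ : ∃ G, G = ∑ k, (∑ i, g i * u i k) ^ 2 := ⟨_, rfl⟩
    have hG0 : 0 ≤ G := by rw [hG]; exact Finset.sum_nonneg fun k _ => sq_nonneg _
    have e1 : ∑ i, g i * (u i ⬝ᵥ x.1) = ∑ k, (∑ i, g i * u i k) * x.1 k := by
      unfold dotProduct
      simp only [Finset.mul_sum, Finset.sum_mul]
      rw [Finset.sum_comm]
      apply Finset.sum_congr rfl
      intro k _
      apply Finset.sum_congr rfl
      intro i _
      ring
    have e2 : (∑ k, (∑ i, g i * u i k) * x.1 k) ^ 2 ≤ G * D ^ 2 := by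
      refine (Finset.sum_mul_sq_le_sq_mul_sq _ _ _).trans ?_
      rw [← hG, ← hDD]
      exact mul_le_mul_of_nonneg_left ((h2 d p hd hp).1 _ x.2) hG0
    rw [e1, ← hG]
    generalize ∑ k, (∑ i, g i * u i k) * x.1 k = Y at e2
    have e3 : |Y| ^ 2 ≤ G * D ^ 2 := by rw [sq_abs]; exact e2
    -- |Y| ≤ D (G / c + c) / 2
    have e4 : (D / (2 * c) * G + D * c / 2) = D / (2 * c) * (G + c ^ 2) := by
      field_simp
    rw [e4]
    have e5 : 0 ≤ D / (2 * c) * (G + c ^ 2) := by positivity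
    have e6 : G * D ^ 2 ≤ (D / (2 * c) * (G + c ^ 2)) ^ 2 := by
      have e7 : (D / (2 * c) * (G + c ^ 2)) ^ 2 - G * D ^ 2 = (D / (2 * c) * (G - c ^ 2)) ^ 2 := by
        field_simp
        ring
      have e8 := sq_nonneg (D / (2 * c) * (G - c ^ 2))
      linarith
    exact (pow_le_pow_iff_left₀ (abs_nonneg Y) e5 two_ne_zero).1 (e3.trans e6)
  have hmain : ∀ c : ℝ, 0 < c → I ≤ D / (2 * c) * S + D * c / 2 := by
    intro c hc
    rw [hI]
    have h3 : Integrable (fun g : Fin n → ℝ =>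
        D / (2 * c) * (∑ k, (∑ i, g i * u i k) ^ 2) + D * c / 2) (gm n) :=
      (hGi.const_mul _).add (integrable_const _)
    refine (integral_mono hint h3 (hpt c hc)).trans (le_of_eq ?_)
    rw [integral_add (hGi.const_mul _) (integrable_const _), integral_const_mul, hGe, ← hS]
    simp
  have hI0 : 0 ≤ I := by
    rw [hI]
    exact integral_nonneg hnn
  rcases (Real.sqrt_nonneg T).eq_or_lt with h3 | h3
  · -- T = 0
    have hT0 : T = 0 := by
      have : 0 ≤ T := hS0.trans hST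
      exact (Real.sqrt_eq_zero this).1 h3.symm
    have hS1 : S = 0 := le_antisymm (hT0 ▸ hST) hS0
    rw [← h3, mul_zero]
    by_contra hc
    rw [not_le] at hc
    have h4 := hmain (I / D) (by positivity)
    rw [hS1, mul_zero, zero_add] at h4
    have h5 : D * (I / D) / 2 = I / 2 := by field_simp
    rw [h5] at h4
    linarith
  · have h4 := hmain _ h3
    have h5 : S ≤ Real.sqrt T * Real.sqrt T := by
      rw [Real.mul_self_sqrt (hS0.trans hST)]; exact hST
    generalize Real.sqrt T = s at h3 h4 h5 ⊢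
    have h6 : D / (2 * s) * S ≤ D / (2 * s) * (s * s) :=
      mul_le_mul_of_nonneg_left h5 (by positivity)
    have h7 : D / (2 * s) * (s * s) = D * s / 2 := by field_simp
    linarith

end Pool.Agent.H999R5.Rk
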