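import Mathlib
import Pool.Agent.H999R5.Rk.Defs

set_option autoImplicit false

namespace Pool.Agent.H999R5.Rk

open MeasureTheory ProbabilityTheory Finset
open Pool.Agent.H999R5.Inj (form SymT injNorm gm gs S_GAU S_BDD)
open scoped Matrix

theorem RAD_sgabs (b : Bool) : |sg b| = 1 := by cases b <;> simp [sg]

theorem RAD_sgnot (b : Bool) : sg (!b) = - sg b := by cases b <;> simp [sg]

theorem RAD_bd {X : Type} {n : ℕ} {f : Fin n → X → ℝ} (hf : Bd f) (ε : Fin n → Bool) :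
    ∃ B : ℝ, ∀ x, |∑ i, sg (ε i) * f i x| ≤ B := by
  obtain ⟨B, hB⟩ := hf
  refine ⟨∑ i : Fin n, B, fun x => ?_⟩
  refine (Finset.abs_sum_le_sum_abs _ _).trans (Finset.sum_le_sum fun i _ => ?_)
  rw [abs_mul, RAD_sgabs, one_mul]
  exact hB i x

theorem t_RAD (h : S_CON) : S_RAD := by
  intro X hX n f k hf hk hfk x0 hx0
  have := hX
  have hz : ∀ ε : Fin n → Bool, ∑ i, sg (ε i) * f i x0 = 0 := by
    intro ε
    exact Finset.sum_eq_zero (fun i _ => by rw [hx0, mul_zero])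
  have hb : ∀ ε : Fin n → Bool, BddAbove (Set.range fun x => ∑ i, sg (ε i) * f i x) := by
    intro ε
    obtain ⟨B, hB⟩ := RAD_bd hf ε
    refine ⟨B, ?_⟩
    rintro _ ⟨x, rfl⟩
    exact (le_abs_self _).trans (hB x)
  have hneg : ∀ (ε : Fin n → Bool) (x : X),
      ∑ i, sg (!(ε i)) * f i x = - ∑ i, sg (ε i) * f i x := by
    intro ε x
    rw [← Finset.sum_neg_distrib]
    exact Finset.sum_congr rfl (fun i _ => by rw [RAD_sgnot]; ring)
  -- step 1
  have h1 : ∀ ε : Fin n → Bool, sn f (fun i => sg (ε i)) ≤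
      (⨆ x, ∑ i, sg (ε i) * f i x) + ⨆ x, ∑ i, sg (!(ε i)) * f i x := by
    intro ε
    have hA : ∀ x, ∑ i, sg (ε i) * f i x ≤ ⨆ x, ∑ i, sg (ε i) * f i x := fun x =>
      le_ciSup (hb ε) x
    have hB : ∀ x, ∑ i, sg (!(ε i)) * f i x ≤ ⨆ x, ∑ i, sg (!(ε i)) * f i x := fun x =>
      le_ciSup (hb (fun i => !(ε i))) x
    have hA0 : 0 ≤ ⨆ x, ∑ i, sg (ε i) * f i x := by
      have := hA x0
      rwa [hz ε] at this
    have hB0 : 0 ≤ ⨆ x, ∑ i, sg (!(ε i)) * f i x := by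
      have := hB x0
      rwa [hz (fun i => !(ε i))] at this
    unfold sn
    refine ciSup_le fun x => ?_
    have e1 := hA x
    have e2 := hB x
    rw [hneg] at e2
    rcases abs_cases (∑ i, sg (ε i) * f i x) with ⟨h3, _⟩ | ⟨h3, _⟩
    · rw [h3]; linarith
    · rw [h3]; linarith
  -- step 2
  let inv : Equiv.Perm (Fin n → Bool) := Function.Involutive.toPerm
    (fun ε i => !(ε i)) (by intro ε; funext i; simp)
  have h2 : ∑ ε : Fin n → Bool, ⨆ x, ∑ i, sg (!(ε i)) * f i x =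
      ∑ ε : Fin n → Bool, ⨆ x, ∑ i, sg (ε i) * f i x :=
    Equiv.sum_comp inv (fun ε : Fin n → Bool => ⨆ x, ∑ i, sg (ε i) * f i x)
  -- step 3
  have h3 := h X hX n (fun _ => 0) f k ⟨0, fun x => by simp⟩ hf hk hfk
  simp only [zero_add] at h3
  -- step 4
  have h4 : ∑ ε : Fin n → Bool, ⨆ x, ∑ i, sg (ε i) * k i x ≤
      ∑ ε : Fin n → Bool, sn k (fun i => sg (ε i)) := by
    refine Finset.sum_le_sum fun ε _ => ?_
    unfold sn
    refine ciSup_mono ?_ fun x => le_abs_self _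
    obtain ⟨B, hB⟩ := RAD_bd hk ε
    refine ⟨B, ?_⟩
    rintro _ ⟨x, rfl⟩
    exact hB x
  calc ∑ ε : Fin n → Bool, sn f (fun i => sg (ε i))
      ≤ ∑ ε : Fin n → Bool, ((⨆ x, ∑ i, sg (ε i) * f i x) +
          ⨆ x, ∑ i, sg (!(ε i)) * f i x) := Finset.sum_le_sum fun ε _ => h1 ε
    _ = 2 * ∑ ε : Fin n → Bool, ⨆ x, ∑ i, sg (ε i) * f i x := by
        rw [Finset.sum_add_distrib, h2]; ring
    _ ≤ 2 * ∑ ε : Fin n → Bool, sn k (fun i => sg (ε i)) := by
        have := h3.trans h4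
        linarith

end Pool.Agent.H999R5.Rk
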