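import Mathlib
import Pool.Agent.H999R5.Rk.Defs

/-! # SN: basic properties of `sn` -/

set_option autoImplicit false

namespace Pool.Agent.H999R5.Rk

open MeasureTheory ProbabilityTheory Finset
open Pool.Agent.H999R5.Inj (form SymT injNorm gm gs S_GAU S_BDD)

theorem sn_abs_le {X : Type} {n : ℕ} (f : Fin n → X → ℝ) (B : ℝ) (hB : ∀ i x, |f i x| ≤ B)
    (g : Fin n → ℝ) (x : X) : |∑ i, g i * f i x| ≤ ∑ i, |g i| * B := by
  refine (Finset.abs_sum_le_sum_abs _ _).trans (Finset.sum_le_sum fun i _ => ?_)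
  rw [abs_mul]
  exact mul_le_mul_of_nonneg_left (hB i x) (abs_nonneg _)

theorem sn_integrable_coord (n : ℕ) (i : Fin n) : Integrable (fun g : Fin n → ℝ => |g i|) (gm n) := by
  have h1 : Integrable (id : ℝ → ℝ) (gaussianReal 0 1) := by
    have h := memLp_id_gaussianReal (μ := 0) (v := 1) 1
    exact h.integrable (by norm_num)
  have h2 : MeasurePreserving (Function.eval i) (gm n) (gaussianReal 0 1) :=
    measurePreserving_eval (μ := fun _ : Fin n => gaussianReal 0 1) i
  have h3 : Integrable ((id : ℝ → ℝ) ∘ Function.eval i) (gm n) :=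
    (h2.integrable_comp h1.aestronglyMeasurable).2 h1
  exact h3.abs

theorem t_SN : S_SN := by
  intro X hX n f hf
  obtain ⟨B, hB⟩ := hf
  have hB0 : ∀ i x, |f i x| ≤ |B| := fun i x => (hB i x).trans (le_abs_self B)
  have hbdd : ∀ g : Fin n → ℝ, BddAbove (Set.range fun x : X => |∑ i, g i * f i x|) := fun g =>
    ⟨∑ i, |g i| * |B|, by rintro _ ⟨x, rfl⟩; exact sn_abs_le f |B| hB0 g x⟩
  have h1 : ∀ g x, |∑ i, g i * f i x| ≤ sn f g := fun g x => le_ciSup (hbdd g) x
  have h2 : ∀ g C, (∀ x, |∑ i, g i * f i x| ≤ C) → sn f g ≤ C := fun g C h => ciSup_le h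
  have h3 : ∀ g, 0 ≤ sn f g := fun g => Real.iSup_nonneg fun x => abs_nonneg _
  have h4 : Continuous (sn f) := by
    refine (LipschitzWith.of_le_add_mul (Real.toNNReal (n * |B|)) fun g g' => ?_).continuous
    rw [Real.coe_toNNReal _ (by positivity)]
    refine h2 g _ fun x => ?_
    have h5 : ∑ i, g i * f i x = ∑ i, g' i * f i x + ∑ i, (g i - g' i) * f i x := by
      rw [← Finset.sum_add_distrib]
      exact Finset.sum_congr rfl fun i _ => by ring
    rw [h5]
    refine (abs_add_le _ _).trans (add_le_add (h1 g' x) ?_)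
    refine (sn_abs_le f |B| hB0 (fun i => g i - g' i) x).trans ?_
    calc ∑ i, |g i - g' i| * |B| ≤ ∑ _i : Fin n, dist g g' * |B| := by
          refine Finset.sum_le_sum fun i _ => mul_le_mul_of_nonneg_right ?_ (abs_nonneg _)
          exact (Real.dist_eq (g i) (g' i)) ▸ dist_le_pi_dist g g' i
      _ = n * |B| * dist g g' := by
          rw [Finset.sum_const, Finset.card_univ, Fintype.card_fin, nsmul_eq_mul]; ring
  refine ⟨h1, h2, h3, h4, ?_⟩
  have h6 : Integrable (fun g : Fin n → ℝ => ∑ i, |g i| * |B|) (gm n) :=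
    integrable_finsetSum _ fun i _ => (sn_integrable_coord n i).mul_const _
  refine h6.mono' h4.aestronglyMeasurable (Filter.Eventually.of_forall fun g => ?_)
  rw [Real.norm_eq_abs, abs_of_nonneg (h3 g)]
  exact h2 g _ fun x => sn_abs_le f |B| hB0 g x

end Pool.Agent.H999R5.Rk
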