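import Pool.Agent.H999R5.Inj.T_GAU
import Pool.Agent.H999R5.Inj.T_BDD
import Pool.Agent.H999R5.RkF.T_CON
import Pool.Agent.H999R5.RkF.T_RAD
import Pool.Agent.H999R5.RkF.T_SN
import Pool.Agent.H999R5.RkF.T_SGN
import Pool.Agent.H999R5.RkF.T_GR
import Pool.Agent.H999R5.RkF.T_L2
import Pool.Agent.H999R5.RkF.T_VAR
import Pool.Agent.H999R5.RkF.T_L1
import Pool.Agent.H999R5.RkF.T_RK1
import Pool.Agent.H999R5.RkF.T_CVX
import Pool.Agent.H999R5.RkF.T_MIX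
import Pool.Agent.H999R5.RkF.T_AUB
import Pool.Agent.H999R5.RkF.T_POLI
import Pool.Agent.H999R5.RkF.T_POL
import Pool.Agent.H999R5.RkF.T_DEC
import Pool.Agent.H999R5.RkF.T_RES

/-! Assembly of the case of bounded multilinear rank. -/

set_option autoImplicit false

namespace Pool.Agent.H999R5.Rk

theorem asm_RK1 : S_RK1 :=
  t_RK1 (t_GR (t_RAD t_CON) t_SN t_SGN) (t_L1 t_L2 (t_VAR Inj.t_GAU) t_SN)

theorem asm_DEC : S_DEC := t_DEC t_AUB (t_POL t_POLI Inj.t_BDD) t_POLI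

theorem asm_RES : S_RES := t_RES (t_MIX asm_RK1 t_CVX t_SN) asm_DEC Inj.t_BDD t_SN

end Pool.Agent.H999R5.Rk
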